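import Mathlib
import Pool.Agent.Lib.MP_cd40e2_lc.PolyD

set_option autoImplicit false

open Finset
open scoped Classical

namespace Pool.Agent.Results.MP_cd40e2_lc.PolyTester

/-- The cube is encoded by Booleans, true standing for 1 and false for -1. A function is a
halfspace (linear threshold function) if it is true exactly where an affine form is nonnegative. -/
def IsLTF {n : ℕ} (f : (Fin n → Bool) → Bool) : Prop :=
  ∃ (w : Fin n → ℝ) (θ : ℝ), ∀ x, f x = true ↔ 0 ≤ ∑ i, w i * (if x i then (1:ℝ) else -1) - θ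

/-- The distance of two Boolean functions under the uniform distribution on the cube. -/
noncomputable def dist {n : ℕ} (f g : (Fin n → Bool) → Bool) : ℝ :=
  ((univ.filter fun x => f x ≠ g x).card : ℝ) / 2 ^ n

/-- The query point attached to y: for the seed p, which gives every variable i a block
(p i).1 and a sign (p i).2, the i-th coordinate is the sign times the block coordinate of y. -/
def queryPoint {n m : ℕ} (p : Fin n → Fin m × Bool) (y : Fin m → Bool) : Fin n → Bool :=
  fun i => if (p i).2 then y (p i).1 else !(y (p i).1)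

/-- The tester with seed p and sample ys queries f at the q points queryPoint p (ys k) and accepts
exactly when some halfspace in the m block variables takes the value of the k-th answer at ys k
for every k. -/
def Accept {n m q : ℕ} (f : (Fin n → Bool) → Bool) (p : Fin n → Fin m × Bool)
    (ys : Fin q → Fin m → Bool) : Prop :=
  ∃ g : (Fin m → Bool) → Bool, IsLTF g ∧ ∀ k, g (ys k) = f (queryPoint p (ys k))

open Pool.Agent.Lib.MP_cd40e2_lc Pool.Agent.Lib.MP_cd40e2_lc.Poly in
/-- A non-adaptive one-sided tester for halfspaces with at most (2000 / ε) ^ 473 queries in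
every dimension: it accepts every halfspace for every seed and sample, and rejects every function
that is ε-far from all halfspaces for at least two thirds of the pairs (seed, sample). -/
theorem result (ε : ℝ) (hε : 0 < ε) : ∃ m q : ℕ, 0 < m ∧ (q : ℝ) ≤ (2000 / ε) ^ 473 ∧
    ∀ (n : ℕ) (f : (Fin n → Bool) → Bool),
      (IsLTF f → ∀ (p : Fin n → Fin m × Bool) (ys : Fin q → Fin m → Bool), Accept f p ys) ∧
      ((∀ g, IsLTF g → ε ≤ dist f g) →
        (2:ℝ) / 3 ≤ ((univ.filter fun s : (Fin n → Fin m × Bool) × (Fin q → Fin m → Bool) =>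
          ¬ Accept f s.1 s.2).card : ℝ)
            / (Fintype.card ((Fin n → Fin m × Bool) × (Fin q → Fin m → Bool)) : ℝ)) := by
  have hq : ∀ {n m : ℕ} (p : Fin n → Fin m × Bool) (y : Fin m → Bool),
      queryPoint p y = emb p y := by
    intro n m p y
    funext i
    simp only [queryPoint, emb]
    cases (p i).2 <;> cases y (p i).1 <;> rfl
  have hL : ∀ {n : ℕ} (g : (Fin n → Bool) → Bool), IsLTF g ↔ LTF g := by
    intro n g
    simp only [IsLTF, LTF, sub_nonneg]
    rfl
  have hd : ∀ {n : ℕ} (f g : (Fin n → Bool) → Bool),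
      dist f g = av (fun z => ind (f z ≠ g z)) := by
    intro n f g
    rw [av_ind_card, card_cube, Fintype.card_fin, dist]
    congr!
  have hone : ∀ {n m q : ℕ} (f : (Fin n → Bool) → Bool), IsLTF f →
      ∀ (p : Fin n → Fin m × Bool) (ys : Fin q → Fin m → Bool), Accept f p ys := by
    intro n m q f hf p ys
    obtain ⟨w, θ, hw⟩ := (hL f).1 hf
    refine ⟨fun y => f (queryPoint p y), (hL _).2 ⟨sk w p, θ, fun y => ?_⟩, fun _ => rfl⟩
    simp only [hq, ← lin_emb]
    exact hw _
  by_cases hε1 : ε ≤ 1
  · obtain ⟨m, q, hm, hqb, h⟩ := poly_tester ε hε hε1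
    refine ⟨m, q, hm, hqb, fun n f => ⟨hone f, fun hf => ?_⟩⟩
    have : NeZero m := ⟨hm.ne'⟩
    have h1 := h n f fun g hg => by rw [← hd]; exact hf g ((hL g).2 hg)
    have h2 := av_ind_card (fun s : (Fin n → Fin m × Bool) × (Fin q → Fin m → Bool) =>
      ¬ Accept f s.1 s.2)
    have h3 : av (fun s : (Fin n → Fin m × Bool) × (Fin q → Fin m → Bool) =>
        ind (¬ Accept f s.1 s.2)) = 1 - av
        (fun s : (Fin n → Fin m × Bool) × (Fin q → Fin m → Bool) =>
          ind (∃ g, LTF g ∧ ∀ k, g (s.2 k) = f (emb s.1 (s.2 k)))) := by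
      rw [← av_const (α := (Fin n → Fin m × Bool) × (Fin q → Fin m → Bool)) 1, ← av_sub]
      refine av_congr fun s => ?_
      have e : Accept f s.1 s.2 ↔ ∃ g, LTF g ∧ ∀ k, g (s.2 k) = f (emb s.1 (s.2 k)) := by
        simp only [Accept, hL, hq]
      by_cases hs : Accept f s.1 s.2
      · rw [ind_neg (not_not.mpr hs), ind_pos (e.1 hs)]; ring
      · rw [ind_pos hs, ind_neg fun h' => hs (e.2 h')]; ring
    have h4 : (2:ℝ) / 3 ≤ av (fun s : (Fin n → Fin m × Bool) × (Fin q → Fin m → Bool) =>
        ind (¬ Accept f s.1 s.2)) := by linarith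
    rw [h2] at h4
    convert h4
  · refine ⟨1, 0, one_pos, by simp only [Nat.cast_zero]; positivity,
      fun n f => ⟨hone f, fun hf => ?_⟩⟩
    have h1 := hf (fun _ => true) ⟨0, 0, fun x => by simp⟩
    rw [hd] at h1
    exact absurd (h1.trans (av_ind_le _)) hε1

end Pool.Agent.Results.MP_cd40e2_lc.PolyTester
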